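import Mathlib
import Pool.Agent.Lib.helper23.VorB

set_option autoImplicit false

namespace Pool.Agent.Results.MP_5fb5c8_co.Main

/-- the Voronoi cell of `v` with respect to the sites `T` -/
def cell {V : Type} (G : SimpleGraph V) (T : Finset V) (v : V) : Set V :=
  {u | ∀ w ∈ T, G.dist u v ≤ G.dist u w}

/-- the number of sites with an infinite cell -/
noncomputable def infCells {V : Type} (G : SimpleGraph V) (T : Finset V) : ℕ :=
  {v | v ∈ T ∧ (cell G T v).Infinite}.ncard

/-- the survival number -/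
noncomputable def surv {V : Type} (G : SimpleGraph V) : ℕ∞ :=
  ⨆ (n : ℕ) (_ : 1 ≤ n ∧ ∃ d : ℕ, ∀ T : Finset V, n ≤ T.card →
    (∀ v ∈ T, ∀ w ∈ T, v ≠ w → d < G.dist v w) → n ≤ infCells G T), (n : ℕ∞)

/-- balls are bounded by a linear function of the radius -/
def LinearGrowth {V : Type} (G : SimpleGraph V) : Prop :=
  ∃ a b : ℕ, ∀ (v : V) (r : ℕ), {u | G.dist v u ≤ r}.ncard ≤ a * r + b

/-- geodesic triangles are uniformly slim -/
def Hyperbolic {V : Type} (G : SimpleGraph V) : Prop :=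
  ∃ δ : ℕ, ∀ (x y z : V) (p : G.Walk x y) (q : G.Walk y z) (r : G.Walk z x),
    p.length = G.dist x y → q.length = G.dist y z → r.length = G.dist z x →
    ∀ a ∈ p.support, ∃ b, (b ∈ q.support ∨ b ∈ r.support) ∧ G.dist a b ≤ δ

theorem result (V : Type) [Infinite V] (G : SimpleGraph V) (hc : G.Connected)
    (hf : ∀ v, (G.neighborSet v).Finite) (ht : ∀ u v, ∃ φ : G ≃g G, φ u = v)
    (hh : Hyperbolic G) (hg : ¬ LinearGrowth G) : surv G = ⊤ :=
  Lib.helper23.Vor.hyp hc hf ht hh.choose hh.choose_spec hg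

end Pool.Agent.Results.MP_5fb5c8_co.Main
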